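import Pool.Agent.H45.SE.TarT

/-! # TCc: images of generic filters and restrictions -/

set_option linter.unusedVariables false

open Ordinal Order Set
open scoped ZFSet

namespace SE

open SF

theorem pf_TCc (hAB : T_AB) (hBA : T_BA) (hBC : T_BC) (hBD : T_BD) (hBJ : T_BJ) (hBL : T_BL)
    (hTBa : T_TBa) (hTBd : T_TBd) (hTBb : T_TBb) (hTCa : T_TCa) : T_TCc := by
  intro D hD π0 ρ0 ρ0' p0 π ρ ρ' p h0 h1 hsub hag hle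
  obtain ⟨-, -, -, -, -, -, bA⟩ := hBA
  obtain ⟨-, -, -, bCpos, bCrst, -, -, -, -, -, -⟩ := hBC
  obtain ⟨-, bDmono, -, -, bDtr, bDrst, -, -⟩ := hBD
  obtain ⟨aMv, -, -, aAg, -, -⟩ := hTBa
  obtain ⟨-, -, hHN, -, bJ⟩ := hBJ D hD
  obtain ⟨e1, e2, e3, e4, e5, e6, e7, e8⟩ := hTBb D.L π0 ρ0 ρ0' p0 h0.c h0.c' h0.i
  obtain ⟨f1, f2, f3, f4, f5, f6, f7, f8⟩ := hTBb D.L π ρ ρ' p h1.c h1.c' h1.i
  have htr : Tr ρ0 := (bA D.L ρ0 h0.c).1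
  have him : im π ρ0 = ρ0' := by
    rw [(aAg π π0 ρ0 hag).1, e3]
  have hsub' : ρ0' ⊆ ρ' := by
    rw [← him]
    exact (f8 ρ0 hsub htr).2.2.1
  refine ⟨hsub', him, ?_⟩
  intro G hG hp
  have hNρ : D.N ρ := hHN ρ h1.h
  have hNρ0 : D.N ρ0 := hHN ρ0 h0.h
  obtain ⟨-, bJ2⟩ := bJ ρ hNρ h1.c
  obtain ⟨-, ⟨gP, -, gUp, gJn, gRst⟩, -⟩ := bJ2 G hG
  obtain ⟨-, bL⟩ := hBL D hD ρ G hNρ h1.c hG
  obtain ⟨-, -, -, gsI, gsR, -, -⟩ := bL ρ0 hNρ0 hsub htr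
  have posFF : ∀ {s q : V}, q ∈ Pos D.L s → FF q := fun hq => ((bCpos _ _ _).1 hq).1
  have posdm : ∀ {s q : V}, q ∈ Pos D.L s → dm q ⊆ s := fun hq => ((bCpos _ _ _).1 hq).2.1
  have up : ∀ {q : V}, q ∈ Pos D.L ρ0 → q ∈ Pos D.L ρ := fun hq =>
    bDmono _ _ _ _ hq (fun x hx => hsub (posdm hq hx))
  have up' : ∀ {q : V}, q ∈ Pos D.L ρ0' → q ∈ Pos D.L ρ' := fun hq =>
    bDmono _ _ _ _ hq (fun x hx => hsub' (posdm hq hx))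
  have hp0 : p0 ∈ Pos D.L ρ0 := h0.i.pp
  have hp0G : p0 ∈ G := gUp _ (gRst ρ0 htr p hp) p0 (up hp0) hle
  refine ⟨(gsI p0).2 ⟨hp0G, posdm hp0⟩, ?_⟩
  have mvq : ∀ q, FF q → dm q ⊆ ρ0 → mv π q = mv π0 q := (aAg π π0 ρ0 hag).2
  ext q'
  constructor
  · intro hq'
    unfold gs at hq'
    obtain ⟨hq1, hq2⟩ := ZFSet.mem_sep.1 hq'
    unfold gp at hq1
    obtain ⟨hq3, r, hr, hrp, hrq⟩ := ZFSet.mem_sep.1 hq1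
    have hrP : r ∈ Pos D.L ρ := gP hr
    have hq4 : q' ∈ Pos D.L ρ0' := bDmono _ _ _ _ hq3 hq2
    have hr0 : rst ρ0 r ∈ gs G ρ0 := gsR r hr
    have hr0G : rst ρ0 r ∈ G := ((gsI _).1 hr0).1
    have hr0d : dm (rst ρ0 r) ⊆ ρ0 := ((gsI _).1 hr0).2
    refine ZFSet.mem_sep.2 ⟨hq4, rst ρ0 r, hr0, ?_, ?_⟩
    · refine bDtr D.L ρ p0 (rst ρ0 p) (rst ρ0 r) (up hp0) (gP (gRst ρ0 htr p hp)) (gP hr0G) ?_ hle
      exact bDrst ρ0 p r (posFF (gP hp)) (posFF hrP) hrp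
    · rw [← mvq _ (posFF (gP hr0G)) hr0d]
      obtain ⟨a1, -, -, -, a5⟩ := aMv π ρ f1 r (posFF hrP) (posdm hrP)
      rw [← a5 ρ0 hsub, him]
      have h3 := bDrst ρ0' q' (mv π r) (posFF hq3) a1 hrq
      rwa [(bCrst ρ0' q' (posFF hq3)).2.2.2 hq2] at h3
  · intro hq'
    unfold gp at hq'
    obtain ⟨hq1, q, hq, hqp, hqq⟩ := ZFSet.mem_sep.1 hq'
    obtain ⟨hqG, hqd⟩ := (gsI q).1 hq
    obtain ⟨-, hj, hjq, hjp⟩ := gJn p hp q hqG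
    have hqP : q ∈ Pos D.L ρ := gP hqG
    have hqP0 : q ∈ Pos D.L ρ0 := bDmono _ _ _ _ hqP hqd
    refine ZFSet.mem_sep.2 ⟨ZFSet.mem_sep.2 ⟨up' hq1, jn q p, hj, hjp, ?_⟩, posdm hq1⟩
    have hjP : jn q p ∈ Pos D.L ρ := gP hj
    obtain ⟨h5, -⟩ := f5 _ hjP hjp
    obtain ⟨h6, -⟩ := e5 _ hqP0 hqp
    have h7 : mv π q = mv π0 q := mvq q (posFF hqP) hqd
    have h8 : Le (mv π (jn q p)) (mv π q) :=
      ((aMv π ρ f1 q (posFF hqP) (posdm hqP)).2.2.2.1 (jn q p) (posFF hjP) (posdm hjP)).1.2 hjq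
    rw [h7] at h8
    exact bDtr D.L ρ' q' (mv π0 q) (mv π (jn q p)) (up' hq1) (up' h6) h5 h8 hqq

end SE
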