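import Pool.Agent.H38.SE.TarA

/-!
Board se, module AH: pairs of reals, constants.
-/

open Ordinal Order Set
open scoped ZFSet

namespace SE

open SF

namespace H50

theorem nS_mem' {m n : ℕ} : nS m ∈ nS n ↔ m < n := by
  rw [Ordinal.mem_toZFSet_iff]
  constructor
  · rintro ⟨a, ha, hb⟩
    have h1 : a = (m : Ordinal.{0}) := Ordinal.toZFSet_injective hb
    rw [h1] at ha
    exact_mod_cast ha
  · intro h
    exact ⟨(m : Ordinal.{0}), by exact_mod_cast h, rfl⟩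

theorem rl_mem {u z : V} (hu : Rl u) : z ∈ u ↔ ∃ l : ℕ, z = ZFSet.pair (nS l) (app u (nS l)) := by
  constructor
  · intro hz
    obtain ⟨a, ha, b, hb, rfl⟩ := ZFSet.mem_prod.1 (hu.1 hz)
    obtain ⟨l, rfl⟩ := mem_om.1 ha
    exact ⟨l, by rw [((pair_mem_iff_app hu).1 hz).2]⟩
  · rintro ⟨l, rfl⟩
    exact pair_app_mem hu (mem_om.2 ⟨l, rfl⟩)

theorem rs_le {u v : V} (hu : Rl u) (hv : Rl v) {n : ℕ}
    (h : ∀ l < n, app u (nS l) = app v (nS l)) : rs u (nS n) ⊆ rs v (nS n) := by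
  intro z hz
  unfold rs at hz ⊢
  rw [ZFSet.mem_sep] at hz ⊢
  obtain ⟨h1, h2⟩ := hz
  obtain ⟨l, rfl⟩ := (rl_mem hu).1 h1
  rw [fst_pair] at h2 ⊢
  exact ⟨(rl_mem hv).2 ⟨l, by rw [h l (nS_mem'.1 h2)]⟩, h2⟩

end H50

open H50 in
theorem pf_AH (hAA : T_AA) (hAG : T_AG) : T_AH := by
  obtain ⟨-, hn, -, hp, -⟩ := hAA
  obtain ⟨G1, -, G3, -, -, G6⟩ := hAG
  have hrs : ∀ u v, Rl u → Rl v → ∀ n : ℕ, (rs u (nS n) = rs v (nS n) ↔
      ∀ l < n, app u (nS l) = app v (nS l)) := by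
    intro u v hu hv n
    constructor
    · intro h l hl
      rw [← ((G1 u hu).2.2.1 n).2.2.2 l hl, ← ((G1 v hv).2.2.1 n).2.2.2 l hl, h]
    · intro h
      ext z
      exact ⟨fun hz => rs_le hu hv h hz, fun hz => rs_le hv hu (fun l hl => (h l hl).symm) hz⟩
  have hprl : ∀ x y, Rl x → Rl y → Rl (prl x y) ∧
      ∀ n : ℕ, app (prl x y) (nS n) = ZFSet.pair (app x (nS n)) (app y (nS n)) := by
    intro x y hx hy
    exact G6 (fun n => ZFSet.pair (app x n) (app y n))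
      (fun n => hp _ ((G1 x hx).2.2.1 n).1 _ ((G1 y hy).2.2.1 n).1)
  have hkc : ∀ e : ℕ, Rl (kc e) ∧ ∀ n : ℕ, app (kc e) (nS n) = nS e := by
    intro e
    exact G6 (fun _ => nS e) (fun _ => hn e)
  refine ⟨hprl, ?_, ?_, hkc, ?_, ?_⟩
  · intro x y x' y' hx hy hx' hy' h
    have h1 : ∀ n : ℕ, app x (nS n) = app x' (nS n) ∧ app y (nS n) = app y' (nS n) := by
      intro n
      have h2 := (hprl x y hx hy).2 n
      rw [h, (hprl x' y' hx' hy').2 n] at h2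
      obtain ⟨a, b⟩ := ZFSet.pair_inj.1 h2
      exact ⟨a.symm, b.symm⟩
    exact ⟨G3 _ _ hx hx' fun n => (h1 n).1, G3 _ _ hy hy' fun n => (h1 n).2⟩
  · intro x y x' y' hx hy hx' hy' n
    rw [hrs _ _ (hprl x y hx hy).1 (hprl x' y' hx' hy').1 n, hrs _ _ hx hx' n, hrs _ _ hy hy' n]
    constructor
    · intro h
      have h1 : ∀ l < n, app x (nS l) = app x' (nS l) ∧ app y (nS l) = app y' (nS l) := by
        intro l hl
        have h2 := h l hl
        rw [(hprl x y hx hy).2 l, (hprl x' y' hx' hy').2 l] at h2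
        exact ZFSet.pair_inj.1 h2
      exact ⟨fun l hl => (h1 l hl).1, fun l hl => (h1 l hl).2⟩
    · rintro ⟨h1, h2⟩ l hl
      rw [(hprl x y hx hy).2 l, (hprl x' y' hx' hy').2 l, h1 l hl, h2 l hl]
  · intro e e' h
    have h1 := (hkc e).2 0
    rw [h, (hkc e').2 0] at h1
    exact (nS_inj.1 h1).symm
  · intro x y hx hy h
    have h1 := (hprl x y hx hy).2 0
    rw [h, (hkc 0).2 0, nS_zero] at h1
    exact pair_ne_empty _ _ h1.symm

end SE
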